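import Mathlib
import Pool.Agent.X53.Exp.Main

/-!
# MP_a46e5c_co, Q1: the Helly number of `L_3(α)` is finite for every `α > 1`

In fact the Helly number of the `d`-dimensional exponential lattice `L_d(α)` is finite for every
`d` and every real `α > 1`.
-/

namespace Pool.Agent.Results.MP_a46e5c_co.HellyFinite

/-- The `d`-dimensional exponential lattice `L_d(α) = {α^n : n ∈ ℤ_{≥0}}^d ⊆ ℝ^d`. -/
def expLattice (d : ℕ) (α : ℝ) : Set (Fin d → ℝ) := {x | ∀ k, ∃ n : ℕ, x k = α ^ n}

/-- The number `h` has the Helly property with respect to `S ⊆ ℝ^d`: for every finite family `F` of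
convex sets, if each subfamily of at most `h` members has a common point lying in `S`, then the
whole family has a common point lying in `S`. -/
def HellyProperty {d : ℕ} (S : Set (Fin d → ℝ)) (h : ℕ) : Prop :=
  ∀ F : Finset (Set (Fin d → ℝ)), (∀ C ∈ F, Convex ℝ C) →
    (∀ G ⊆ F, G.card ≤ h → ∃ x ∈ S, ∀ C ∈ G, x ∈ C) → ∃ x ∈ S, ∀ C ∈ F, x ∈ C

/-- The Helly number of `S`: the least `h` with the Helly property, and `⊤ = ∞` if there is
none. -/
noncomputable def hellyNumber {d : ℕ} (S : Set (Fin d → ℝ)) : ℕ∞ :=
  ⨅ (h : ℕ) (_ : HellyProperty S h), (h : ℕ∞)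

/-- `T` is empty in `S`: every point of `S ∩ conv T` is a vertex (an extreme point) of
`conv T`. -/
def EmptyIn {d : ℕ} (S T : Set (Fin d → ℝ)) : Prop :=
  ∀ z ∈ S ∩ convexHull ℝ T, z ∈ (convexHull ℝ T).extremePoints ℝ

/-- For every dimension `d` and every real `α > 1` the Helly number of the exponential lattice
`L_d(α)` is finite, and the sizes of the subsets of `L_d(α)` (finite or not) that are empty in
`L_d(α)` are bounded. The case `d = 3` answers Q1: yes. -/
theorem result (d : ℕ) (α : ℝ) (hα : 1 < α) :
    hellyNumber (expLattice d α) < ⊤ ∧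
    ∃ N : ℕ, ∀ T ⊆ expLattice d α, EmptyIn (expLattice d α) T → T.encard ≤ N := by
  classical
  constructor
  · obtain ⟨h, hh⟩ := Pool.Agent.X53.Exp.helly_finite d α hα
    have hP : HellyProperty (expLattice d α) h := hh
    exact lt_of_le_of_lt (iInf₂_le h hP) (ENat.coe_lt_top h)
  · obtain ⟨N, hN⟩ := Pool.Agent.X53.Exp.empty_bound d α hα
    refine ⟨N, fun T hT hemp => ?_⟩
    by_contra hcon
    push Not at hcon
    have hle : ((N + 1 : ℕ) : ℕ∞) ≤ T.encard := by
      have := Order.add_one_le_of_lt hcon
      simpa using this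
    obtain ⟨T', hT'T, hT'c⟩ := Set.exists_subset_encard_eq hle
    have hfin : T'.Finite := Set.finite_of_encard_eq_coe hT'c
    set A : Finset (Fin d → ℝ) := hfin.toFinset with hA
    have hAT : (A : Set (Fin d → ℝ)) = T' := hfin.coe_toFinset
    have hAc : A.card = N + 1 := by
      have := hfin.encard_eq_coe_toFinset_card
      rw [hT'c] at this
      exact_mod_cast this.symm
    have hvert : ∀ z ∈ expLattice d α, z ∈ convexHull ℝ T →
        z ∈ T ∧ z ∉ convexHull ℝ (T \ {z}) := by
      intro z hz hzc
      have hext := hemp z ⟨hz, hzc⟩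
      refine ⟨extremePoints_convexHull_subset hext, fun hcon' => ?_⟩
      have hsub : convexHull ℝ (T \ {z}) ⊆ convexHull ℝ T :=
        convexHull_mono Set.diff_subset
      have h1 : z ∈ (convexHull ℝ (T \ {z})).extremePoints ℝ :=
        inter_extremePoints_subset_extremePoints_of_subset hsub ⟨hcon', hext⟩
      have h2 := extremePoints_convexHull_subset h1
      exact h2.2 rfl
    have hempA : Pool.Agent.X53.Exp.EmptyIn (Pool.Agent.X53.Exp.expLattice d α) A := by
      intro z hz hzc
      rw [hAT] at hzc
      have h1 := hvert z hz (convexHull_mono hT'T hzc)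
      have hzT' : z ∈ T' := by
        by_contra hzn
        apply h1.2
        refine convexHull_mono ?_ hzc
        intro x hx
        exact ⟨hT'T hx, fun h => hzn (by rw [Set.mem_singleton_iff] at h; rw [← h]; exact hx)⟩
      refine ⟨?_, fun h => h1.2 ?_⟩
      · rw [← Finset.mem_coe, hAT]; exact hzT'
      · rw [hAT] at h
        exact convexHull_mono (Set.diff_subset_diff_left hT'T) h
    have := hN A (by rw [hAT]; exact hT'T.trans hT) hempA
    omega

end Pool.Agent.Results.MP_a46e5c_co.HellyFinite
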